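import Mathlib
import Pool.Agent.KS6_69.Ric.H662.RdA

set_option autoImplicit false
set_option linter.unusedSimpArgs false

namespace Pool.Agent.KS6_69.Ric.H662.RdB

open Set Filter Topology ComplexConjugate
open Pool.Agent.KS6_69.Ric.H662.RdA

variable (B : Base)

theorem normSq_cast (w : ℂ) : ((‖w‖ ^ 2 : ℝ) : ℂ) = w * conj w := by
  rw [Complex.mul_conj, Complex.normSq_eq_norm_sq]

theorem normSq_cast' (w : ℂ) : ((‖w‖ : ℝ) : ℂ) ^ 2 = w * conj w := by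
  rw [← normSq_cast]
  push_cast
  rfl

theorem rho_cast (p : ℂ × ℂ) :
    ((rho B p : ℝ) : ℂ) = (1 - p.2 * conj p.2 * (B.k p.1 : ℂ))⁻¹ := by
  rw [rho, Complex.ofReal_inv, Complex.ofReal_sub, Complex.ofReal_mul, normSq_cast]
  simp

theorem one_sub_pos {p : ℂ × ℂ} (hp : p ∈ dom B) : 0 < 1 - ‖p.2‖ ^ 2 * B.k p.1 := by
  have := hp.2
  linarith

theorem one_sub_ne {p : ℂ × ℂ} (hp : p ∈ dom B) :
    (1 - p.2 * conj p.2 * (B.k p.1 : ℂ)) ≠ 0 := by
  have h := one_sub_pos B hp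
  rw [← normSq_cast]
  exact_mod_cast h.ne'

theorem rho_pos {p : ℂ × ℂ} (hp : p ∈ dom B) : 0 < rho B p := inv_pos.mpr (one_sub_pos B hp)

theorem one_le_rho {p : ℂ × ℂ} (hp : p ∈ dom B) : 1 ≤ rho B p := by
  have h := one_sub_pos B hp
  have hk := B.kpos p.1 hp.1
  rw [rho]
  rw [one_le_inv₀ h]
  nlinarith [sq_nonneg ‖p.2‖, mul_nonneg (sq_nonneg ‖p.2‖) hk.le]

/-- the relation `ρ (1 - |w|² k) = 1`. -/
theorem rho_rel {p : ℂ × ℂ} (hp : p ∈ dom B) :
    rho B p * (‖p.2‖ ^ 2 * B.k p.1) = rho B p - 1 := by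
  have h := one_sub_pos B hp
  rw [rho]
  field_simp
  ring

theorem w2_k {p : ℂ × ℂ} (hp : p ∈ dom B) :
    W2 (fun x => ((B.k x.1 : ℝ) : ℂ)) p (B.k p.1 * B.lam p.1) (B.k p.1 * conj (B.lam p.1)) 0 0 :=
  (W2.ofBase (B.dk p.1 hp.1))

theorem w2_rho {p : ℂ × ℂ} (hp : p ∈ dom B) :
    W2 (fun x => ((rho B x : ℝ) : ℂ)) p
      ((rho B p : ℂ) ^ 2 * (B.k p.1 * p.2 * conj p.2 * B.lam p.1))
      ((rho B p : ℂ) ^ 2 * (B.k p.1 * p.2 * conj p.2 * conj (B.lam p.1)))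
      ((rho B p : ℂ) ^ 2 * (B.k p.1 * conj p.2))
      ((rho B p : ℂ) ^ 2 * (B.k p.1 * p.2)) := by
  have h1 := ((W2.snd p).mul (W2.snd p).conj).mul (w2_k B hp)
  have h2 := (W2.const (-1) p).mul h1
  have h3 := (W2.const 1 p).add h2
  have h4 := h3.inv (by
    have := one_sub_ne B hp
    intro h; apply this; rw [← h]; ring)
  have e : (fun x : ℂ × ℂ => ((rho B x : ℝ) : ℂ))
      = fun x : ℂ × ℂ => (1 + -1 * (x.2 * conj x.2 * ((B.k x.1 : ℝ) : ℂ)))⁻¹ := by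
    funext x
    rw [rho_cast]
    congr 1
    ring
  rw [e]
  have e2 : ((rho B p : ℝ) : ℂ) = (1 + -1 * (p.2 * conj p.2 * ((B.k p.1 : ℝ) : ℂ)))⁻¹ := by
    rw [rho_cast]; congr 1; ring
  rw [e2]
  refine h4.congr ?_ ?_ ?_ ?_ <;> simp only [map_zero, map_one] <;> ring

theorem w2_bb {p : ℂ × ℂ} (hp : p ∈ dom B) :
    W2 (fun x => ((bb B x : ℝ) : ℂ)) p
      ((bb B p : ℂ) * (B.lam p.1 + SS B p * (p.2 * B.lam p.1)))
      ((bb B p : ℂ) * (conj (B.lam p.1) + conj (SS B p) * (conj p.2 * conj (B.lam p.1))))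
      ((bb B p : ℂ) * SS B p)
      ((bb B p : ℂ) * conj (SS B p)) := by
  have h := (w2_k B hp).mul ((w2_rho B hp).mul (w2_rho B hp))
  have e : (fun x : ℂ × ℂ => ((bb B x : ℝ) : ℂ))
      = fun x : ℂ × ℂ => ((B.k x.1 : ℝ) : ℂ) * (((rho B x : ℝ) : ℂ) * ((rho B x : ℝ) : ℂ)) := by
    funext x
    simp only [bb]
    push_cast
    ring
  rw [e]
  refine h.congr ?_ ?_ ?_ ?_ <;>
    simp only [bb, SS, map_mul, Complex.conj_ofReal, Complex.conj_conj, map_ofNat] <;>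
    push_cast <;> ring

theorem w2_qq {p : ℂ × ℂ} (hp : p ∈ dom B) :
    W2 (fun x => ((qq B x : ℝ) : ℂ)) p
      (qz B p + (bb B p : ℂ) * conj p.2 * B.th p.1 * (p.2 * B.lam p.1))
      (conj (qz B p) + (bb B p : ℂ) * p.2 * B.th p.1 * (conj p.2 * conj (B.lam p.1)))
      ((bb B p : ℂ) * conj p.2 * B.th p.1)
      ((bb B p : ℂ) * p.2 * B.th p.1) := by
  have h1 := (w2_rho B hp).add (W2.const (-1) p)
  have h := (W2.ofBase (B.dg0 p.1 hp.1)).add (h1.mul (W2.ofBase (B.dth p.1 hp.1)))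
  have e : (fun x : ℂ × ℂ => ((qq B x : ℝ) : ℂ))
      = fun x : ℂ × ℂ => ((B.g0 x.1 : ℝ) : ℂ)
        + (((rho B x : ℝ) : ℂ) + -1) * ((B.th x.1 : ℝ) : ℂ) := by
    funext x
    simp only [qq]
    push_cast
    ring
  rw [e]
  refine h.congr ?_ ?_ ?_ ?_ <;>
    simp only [bb, qz, map_add, map_sub, map_mul, map_one, Complex.conj_ofReal,
      Complex.conj_conj] <;>
    push_cast <;> ring

theorem w2_nu (v : ℂ × ℂ) {p : ℂ × ℂ} (hp : p ∈ dom B) :
    W2 (fun x => nu B x v) p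
      (p.2 * B.mu p.1 * v.1) (p.2 * B.th p.1 * v.1) (B.lam p.1 * v.1) 0 := by
  have h := (W2.const v.2 p).add
    (((W2.snd p).mul (W2.ofBase (B.dlam p.1 hp.1))).mul (W2.const v.1 p))
  unfold nu
  refine h.congr ?_ ?_ ?_ ?_ <;> simp

theorem EE_lin (p A C D : ℂ × ℂ) :
    EE B p A C D = EE B p (1, 0) C D * A.1 + EE B p (0, 1) C D * A.2 := by
  simp [EE, NN, MM, TT, nu]
  ring

theorem w2_hf (C D : ℂ × ℂ) {p : ℂ × ℂ} (hp : p ∈ dom B) :
    W2 (fun x => hf B x C D) p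
      (EE B p (1, 0) C D) (conj (EE B p (1, 0) D C))
      (EE B p (0, 1) C D) (conj (EE B p (0, 1) D C)) := by
  have h := ((w2_qq B hp).mul (W2.const (C.1 * conj D.1) p)).add
    ((w2_bb B hp).mul ((w2_nu B C hp).mul (w2_nu B D hp).conj))
  unfold hf
  refine h.congr ?_ ?_ ?_ ?_ <;>
    simp [EE, NN, MM, TT, nu] <;> ring

theorem w2_SS {p : ℂ × ℂ} (hp : p ∈ dom B) :
    W2 (fun x => SS B x) p
      (SS B p * (B.lam p.1 + SS B p * (p.2 * B.lam p.1) / 2))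
      ((c2 B p : ℂ) * (conj p.2 * conj (B.lam p.1)))
      (SS B p * SS B p / 2)
      ((c2 B p : ℂ)) := by
  have h := (((W2.const 2 p).mul (w2_k B hp)).mul (w2_rho B hp)).mul (W2.snd p).conj
  unfold SS
  refine h.congr ?_ ?_ ?_ ?_ <;>
    simp only [c2, map_zero, map_one, Complex.ofReal_mul, Complex.ofReal_add, normSq_cast,
      Complex.ofReal_one, Complex.ofReal_ofNat] <;> ring

theorem w2_qz {p : ℂ × ℂ} (hp : p ∈ dom B) :
    W2 (fun x => qz B x) p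
      (B.gamp p.1 + (bb B p : ℂ) * conj p.2 * (p.2 * B.lam p.1) * B.sig p.1
        + ((rho B p : ℂ) - 1) * B.sigp p.1)
      ((qzz B p : ℂ) + (bb B p : ℂ) * p.2 * B.sig p.1 * (conj p.2 * conj (B.lam p.1)))
      ((bb B p : ℂ) * conj p.2 * B.sig p.1)
      ((bb B p : ℂ) * p.2 * B.sig p.1) := by
  have h1 := (w2_rho B hp).add (W2.const (-1) p)
  have h := (W2.ofBase (B.dgam p.1 hp.1)).add (h1.mul (W2.ofBase (B.dsig p.1 hp.1)))
  have e : (fun x : ℂ × ℂ => qz B x)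
      = fun x : ℂ × ℂ => B.gam x.1 + (((rho B x : ℝ) : ℂ) + -1) * B.sig x.1 := by
    funext x
    simp only [qz]
    ring
  rw [e]
  refine h.congr ?_ ?_ ?_ ?_ <;>
    simp only [bb, qzz] <;> push_cast <;> ring

theorem w2_NN (A C : ℂ × ℂ) {p : ℂ × ℂ} (hp : p ∈ dom B) :
    W2 (fun x => NN B x A C) p
      (PN B p (1, 0) A C) (DN B p (1, 0) A C) (PN B p (0, 1) A C) (DN B p (0, 1) A C) := by
  have hl := W2.ofBase (B.dlam p.1 hp.1)
  have h1 := ((w2_SS B hp).mul (w2_nu B A hp)).mul (w2_nu B C hp)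
  have h2 := hl.mul (W2.const (A.1 * C.2 + A.2 * C.1) p)
  have h3 := ((W2.snd p).mul ((hl.mul hl).add (W2.ofBase (B.dmu p.1 hp.1)))).mul
    (W2.const (A.1 * C.1) p)
  have h := (h1.add h2).add h3
  have e : (fun x : ℂ × ℂ => NN B x A C)
      = fun x : ℂ × ℂ => SS B x * nu B x A * nu B x C + B.lam x.1 * (A.1 * C.2 + A.2 * C.1)
        + x.2 * (B.lam x.1 * B.lam x.1 + B.mu x.1) * (A.1 * C.1) := by
    funext x
    simp only [NN]
    ring
  rw [e]
  refine h.congr ?_ ?_ ?_ ?_ <;>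
    simp only [PN, DN, TT, nu, uu, c2, SS, map_add, map_mul, map_zero, map_one,
      Complex.ofReal_mul, Complex.ofReal_add, normSq_cast,
      Complex.ofReal_one, Complex.ofReal_ofNat] <;> ring

theorem w2_MM (A C : ℂ × ℂ) {p : ℂ × ℂ} (hp : p ∈ dom B) :
    W2 (fun x => MM B x A C) p
      (PM B p (1, 0) A C) (DM B p (1, 0) A C) (PM B p (0, 1) A C) (DM B p (0, 1) A C) := by
  have ht := W2.ofBase (B.dth p.1 hp.1)
  have h1 := (w2_qz B hp).mul (W2.const (A.1 * C.1) p)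
  have h2 := (((w2_bb B hp).mul (W2.snd p).conj).mul ht).mul
    (((W2.const A.1 p).mul (w2_nu B C hp)).add ((W2.const C.1 p).mul (w2_nu B A hp)))
  have h := h1.add h2
  unfold MM TT
  refine h.congr ?_ ?_ ?_ ?_ <;>
    simp only [PM, DM, TT, nu, uu, SS, map_add, map_mul, map_zero, map_one,
      Complex.ofReal_mul, Complex.ofReal_add, normSq_cast', Complex.ofReal_pow,
      Complex.ofReal_one, Complex.ofReal_ofNat, Complex.conj_ofReal, Complex.conj_conj,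
      map_ofNat] <;> ring

theorem w2_EE (A C D : ℂ × ℂ) {p : ℂ × ℂ} (hp : p ∈ dom B) :
    W2 (fun x => EE B x A C D) p
      (PP B p (1, 0) A C D) (QQ B p (1, 0) A C D) (PP B p (0, 1) A C D)
      (QQ B p (0, 1) A C D) := by
  have h := (((w2_bb B hp).mul (w2_NN B A C hp)).mul (w2_nu B D hp).conj).add
    ((W2.const (conj D.1) p).mul (w2_MM B A C hp))
  unfold EE
  refine h.congr ?_ ?_ ?_ ?_
  · simp only [PP, map_mul, map_zero, map_one, Complex.conj_ofReal, Complex.conj_conj]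
    rw [show nu B p (1, 0) = p.2 * B.lam p.1 by simp [nu]]
    ring
  · simp only [QQ, map_mul, map_zero, map_one, Complex.conj_ofReal, Complex.conj_conj]
    rw [show conj (NN B p (1, 0) D) = conj (SS B p) * (conj p.2 * conj (B.lam p.1))
      * conj (nu B p D) + conj (B.lam p.1) * conj D.2
      + conj p.2 * (conj (B.lam p.1) ^ 2 + conj (B.mu p.1)) * conj D.1 by
        simp [NN, nu]]
    simp only [nu, map_add, map_mul]
    ring
  · simp only [PP, map_mul, map_zero, map_one, Complex.conj_ofReal, Complex.conj_conj]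
    rw [show nu B p (0, 1) = 1 by simp [nu]]
    ring
  · simp only [QQ, map_mul, map_zero, map_one, Complex.conj_ofReal, Complex.conj_conj]
    rw [show conj (NN B p (0, 1) D) = conj (SS B p) * conj (nu B p D)
      + conj (B.lam p.1) * conj D.1 by
        simp [NN, nu]]
    ring

end Pool.Agent.KS6_69.Ric.H662.RdB
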