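import Mathlib
import Pool.Agent.KS6_69.Ric.H662.RdD
import Pool.Agent.KS6_69.Ric.H662.RicDefs
import Pool.Agent.KS6_69.Ric.H269.KdJ
import Pool.Agent.KS6_69.Ric.H662.Rg.P_star
import Pool.Agent.KS6_69.Ric.H662.Rg.P_star2
import Pool.Agent.KS6_69.Ric.H662.Rg.P_trace
import Pool.Agent.KS6_69.Ric.H662.Rg.P_ric_ineq

set_option autoImplicit false
set_option linter.unusedSimpArgs false

namespace Pool.Agent.KS6_69.Ric.H662.RdE

open Set Filter Topology ComplexConjugate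
open Pool.Agent.KS6_69.Ric.H269.KdDefs Pool.Agent.KS6_69.Ric.H662.RicDefs
open Pool.Agent.KS6_69.Ric.H662.RdA Pool.Agent.KS6_69.Ric.H662.RdB
open Pool.Agent.KS6_69.Ric.H662.RdC Pool.Agent.KS6_69.Ric.H662.RdD

/-- The bounds under which the metric is nonpositively curved. -/
structure Good (B : Base) (T V : ℂ → ℝ) : Prop where
  th1 : ∀ z : ℂ, 1 ≤ B.th z
  thT : ∀ z : ℂ, B.th z ≤ T z
  sig_le : ∀ z : ℂ, ‖B.sig z‖ ≤ T z
  kth_le : ∀ z : ℂ, |B.kth z| ≤ T z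
  V0 : ∀ z : ℂ, 0 ≤ V z
  gam_le : ∀ z : ℂ, ‖B.gam z‖ ^ 2 ≤ V z * B.g0 z ^ 2
  gbig : ∀ z : ℂ, 200 * (T z ^ 6 + V z * T z) ≤ B.g0 z
  gk : ∀ z : ℂ, B.g0 z ≤ B.gzz z - ‖B.gam z‖ ^ 2 / B.g0 z

variable (B : Base)

theorem wedge (p X Y : ℂ × ℂ) :
    gm B p X X * gm B p Y Y - gm B p X Y ^ 2
      = (qq B p * (X.1 * conj Y.1).im - bb B p * (nu B p X * conj (nu B p Y)).im) ^ 2
        + qq B p * bb B p * ‖X.1 * conj (nu B p Y) - Y.1 * conj (nu B p X)‖ ^ 2 := by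
  rw [gm_self, gm_self, gm_apply]
  unfold hf
  generalize nu B p X = a
  generalize nu B p Y = b
  generalize X.1 = x
  generalize Y.1 = y
  have hn : ∀ z : ℂ, ‖z‖ ^ 2 = z.re ^ 2 + z.im ^ 2 := by
    intro z
    rw [← Complex.normSq_eq_norm_sq, Complex.normSq_apply]
    ring
  simp only [hn, Complex.add_re, Complex.mul_re, Complex.mul_im, Complex.ofReal_re,
    Complex.ofReal_im, Complex.sub_re, Complex.sub_im, Complex.conj_re, Complex.conj_im]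
  ring

theorem bilin_wedge_pos {p : ℂ × ℂ} (hp : p ∈ dom B) {X Y : ℂ × ℂ}
    (h : LinearIndependent ℝ ![X, Y]) : 0 < gm B p X X * gm B p Y Y - gm B p X Y ^ 2 := by
  have hY : Y ≠ 0 := by
    have := h.ne_zero 1
    simpa using this
  have hYY := gm_pos B hp hY
  have hZ : (gm B p Y Y) • X + (-(gm B p X Y)) • Y ≠ 0 := by
    intro h0
    have := LinearIndependent.pair_iff.mp h _ _ h0
    exact hYY.ne' this.1
  have h1 := gm_pos B hp hZ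
  have h2 : gm B p ((gm B p Y Y) • X + (-(gm B p X Y)) • Y)
      ((gm B p Y Y) • X + (-(gm B p X Y)) • Y)
      = gm B p Y Y * (gm B p X X * gm B p Y Y - gm B p X Y ^ 2) := by
    simp only [map_add, map_smul, LinearMap.add_apply, LinearMap.smul_apply, smul_eq_mul]
    rw [gm_symm B p Y X]
    ring
  rw [h2] at h1
  exact (mul_pos_iff_of_pos_left hYY).mp h1

/-- the curvature of the base, times `g0`. -/
noncomputable def kap (z : ℂ) : ℝ := B.gzz z - ‖B.gam z‖ ^ 2 / B.g0 z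

theorem rel2 {p : ℂ × ℂ} (hp : p ∈ dom B) : uu B p = 2 * (rho B p - 1) + 1 := by
  have hrel := rho_rel B hp
  unfold uu
  linarith

theorem rel3 {p : ℂ × ℂ} (hp : p ∈ dom B) :
    bb B p * ‖p.2‖ ^ 2 = (rho B p - 1) * ((rho B p - 1) + 1) := by
  have hrel := rho_rel B hp
  unfold bb
  have : B.k p.1 * rho B p ^ 2 * ‖p.2‖ ^ 2
      = rho B p * (rho B p * (‖p.2‖ ^ 2 * B.k p.1)) := by ring
  rw [this, hrel]
  ring

theorem rel4 {p : ℂ × ℂ} (hp : p ∈ dom B) : c2 B p = 2 * bb B p := by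
  have hrel := rho_rel B hp
  unfold c2 bb
  have : 2 * B.k p.1 * rho B p * (1 + B.k p.1 * rho B p * ‖p.2‖ ^ 2)
      = 2 * B.k p.1 * rho B p * (1 + rho B p * (‖p.2‖ ^ 2 * B.k p.1)) := by ring
  rw [this, hrel]
  ring

theorem star_at {T V : ℂ → ℝ} (hG : Good B T V) {p : ℂ × ℂ} (hp : p ∈ dom B) :
    0 < eB B p ∧ kap B p.1 / 2 ≤ eA B p - 2 * (bb B p * ‖p.2‖ ^ 2) * ‖eE B p‖ ^ 2 / eB B p
      - eB B p ^ 2 / 2 := by
  have hr1 := one_le_rho B hp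
  exact Pool.Agent.KS6_69.Ric.H662.Rg.star (Y := rho B p - 1) (g := B.g0 p.1) (θ := B.th p.1)
    (T := T p.1) (V := V p.1) (kθ := B.kth p.1) (gzz := B.gzz p.1) (q := qq B p)
    (β := bb B p * ‖p.2‖ ^ 2) (Bt := eB B p) (Aa := eA B p)
    (σ := B.sig p.1) (γ := B.gam p.1) (qz := qz B p) (e := eE B p)
    (by linarith) (hG.th1 _) (hG.thT _) (hG.sig_le _) (hG.kth_le _) (hG.V0 _) (hG.gam_le _)
    (hG.gbig _) (hG.gk _) rfl (rel3 B hp) (by simp [qz]) rfl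
    (by unfold eB; rw [rel2 B hp]) (by unfold eA qzz; ring)

theorem kap_nonneg {T V : ℂ → ℝ} (hG : Good B T V) (z : ℂ) : 0 ≤ kap B z := by
  have h1 := hG.gk z
  have h2 := B.g0pos z trivial
  unfold kap
  linarith

theorem secCurv_nonpos {T V : ℂ → ℝ} (hG : Good B T V) {p : ℂ × ℂ} (hp : p ∈ dom B)
    {X Y : ℂ × ℂ} (h : LinearIndependent ℝ ![X, Y]) : secCurv (gm B) p X Y ≤ 0 := by
  have hden := bilin_wedge_pos B hp h
  have hq := qq_pos B hp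
  have hb := bb_pos B hp
  obtain ⟨s1, s2⟩ := star_at B hG hp
  have hk := kap_nonneg B hG p.1
  have key := Pool.Agent.KS6_69.Ric.H269.KdJ.S18945.quad_form (κ := 0) (w := p.2) (e := eE B p) hb hq
    le_rfl one_pos (by ring : ‖p.2‖ ^ 2 * bb B p = bb B p * ‖p.2‖ ^ 2)
    (Aa := eA B p) (Bt := eB B p) (by simpa using s1) (by
      simp only [zero_mul, sub_zero]
      linarith)
    ((X.1 * conj Y.1).im) ((nu B p X * conj (nu B p Y)).im)
    (X.1 * conj (nu B p Y) - Y.1 * conj (nu B p X)) (w2 := 0)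
  unfold secCurv
  rw [div_le_iff₀ hden, gm_curv B hp, rel4 B hp]
  rw [zero_mul] at *
  linarith

theorem nonpos {T V : ℂ → ℝ} (hG : Good B T V) : HasNonposSecCurv (dom B) (gm B) :=
  fun _ hp _ _ h => secCurv_nonpos B hG hp h

/-- the Ricci curvature in an orthonormal frame. -/
theorem ricci_eq {p : ℂ × ℂ} (hp : p ∈ dom B) {e : Fin 4 → ℂ × ℂ}
    (he : IsOrthonormalFrame (gm B) p e) (v : ℂ × ℂ) :
    ricci (gm B) p e v = -(2 * eA B p * ‖v.1‖ ^ 2 / qq B p + 2 * c2 B p * ‖nu B p v‖ ^ 2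
      + bb B p * eB B p * (2 * ‖nu B p v‖ ^ 2 / qq B p + 2 * ‖v.1‖ ^ 2 / bb B p)
      + 4 * (conj v.1 * nu B p v * conj ((bb B p : ℂ) * p.2 * eE B p)).re / qq B p) := by
  have hq := qq_pos B hp
  have hb := bb_pos B hp
  have h := Pool.Agent.KS6_69.Ric.H662.Rg.trace hq hb (x := fun i => (e i).1)
    (n := fun i => nu B p (e i)) (fun i j => he i j) (eA B p) (eB B p) (c2 B p)
    ((bb B p : ℂ) * p.2 * eE B p) v.1 (nu B p v)
  unfold ricci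
  rw [← h, ← Finset.sum_neg_distrib]
  refine Finset.sum_congr rfl fun i _ => ?_
  rw [gm_curv B hp]

theorem exists_frame {p : ℂ × ℂ} (hp : p ∈ dom B) : ∃ e, IsOrthonormalFrame (gm B) p e := by
  have hq := qq_pos B hp
  have hb := bb_pos B hp
  have hq' : ((Real.sqrt (qq B p) : ℝ) : ℂ) ≠ 0 := by
    exact_mod_cast (Real.sqrt_pos.mpr hq).ne'
  have hb' : ((Real.sqrt (bb B p) : ℝ) : ℂ) ≠ 0 := by
    exact_mod_cast (Real.sqrt_pos.mpr hb).ne'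
  have hq2 : ((qq B p : ℝ) : ℂ) = ((Real.sqrt (qq B p) : ℝ) : ℂ) ^ 2 := by
    exact_mod_cast (Real.sq_sqrt hq.le).symm
  have hb2 : ((bb B p : ℝ) : ℂ) = ((Real.sqrt (bb B p) : ℝ) : ℂ) ^ 2 := by
    exact_mod_cast (Real.sq_sqrt hb.le).symm
  refine ⟨![((Real.sqrt (qq B p) : ℂ)⁻¹, -(p.2 * B.lam p.1) * (Real.sqrt (qq B p) : ℂ)⁻¹),
    (Complex.I * (Real.sqrt (qq B p) : ℂ)⁻¹,
      -(p.2 * B.lam p.1) * (Complex.I * (Real.sqrt (qq B p) : ℂ)⁻¹)),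
    (0, (Real.sqrt (bb B p) : ℂ)⁻¹), (0, Complex.I * (Real.sqrt (bb B p) : ℂ)⁻¹)], ?_⟩
  intro i j
  rw [gm_apply]
  unfold hf nu
  rw [hq2, hb2]
  fin_cases i <;> fin_cases j <;>
    simp [Complex.conj_ofReal, hq', hb'] <;> (try field_simp) <;> (try simp) <;> (try (rw [← Complex.ofReal_pow, Complex.ofReal_re])) <;>
    (try (left; rw [← Complex.ofReal_pow, Complex.ofReal_im]))

theorem ricci_le {T V : ℂ → ℝ} (hG : Good B T V) {p : ℂ × ℂ} (hp : p ∈ dom B) {K₀ : ℝ}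
    (hK0 : 0 ≤ K₀) (hK : K₀ ≤ 1 / 2)
    (hbase : 2 * K₀ * B.g0 p.1 ^ 2 ≤ kap B p.1 / 2 + B.th p.1 * B.g0 p.1) :
    RicciLE (gm B) p (-K₀) := by
  refine ⟨exists_frame B hp, fun e he v => ?_⟩
  have hq := qq_pos B hp
  have hb := bb_pos B hp
  have hr1 := one_le_rho B hp
  have hg0 := B.g0pos p.1 trivial
  obtain ⟨s1, s2⟩ := star_at B hG hp
  have hk := kap_nonneg B hG p.1
  have hβ : 0 ≤ bb B p * ‖p.2‖ ^ 2 := by positivity
  have h1 : 0 ≤ 2 * (bb B p * ‖p.2‖ ^ 2) * ‖eE B p‖ ^ 2 / eB B p := by positivity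
  have hA : kap B p.1 / 2 ≤ eA B p := by nlinarith [sq_nonneg (eB B p)]
  have hA2 : 2 * (bb B p * ‖p.2‖ ^ 2) * ‖eE B p‖ ^ 2 / eB B p ≤ eA B p := by
    nlinarith [sq_nonneg (eB B p)]
  have h2 := Pool.Agent.KS6_69.Ric.H662.Rg.star2 (Y := rho B p - 1) (g := B.g0 p.1) (θ := B.th p.1)
    (q := qq B p) (β := bb B p * ‖p.2‖ ^ 2) (Bt := eB B p) (Aa := eA B p) (κ := kap B p.1)
    (K₀ := K₀) (by linarith) hg0 (B.thpos p.1 trivial) rfl (rel3 B hp)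
    (by unfold eB; rw [rel2 B hp]) hA hK0 hK hbase
  have h3 := Pool.Agent.KS6_69.Ric.H662.Rg.ric_ineq (w := p.2) (e := eE B p) (y := v.1)
    (ν := nu B p v) hq hb s1 rfl hA2 hK0 hK h2
  rw [ricci_eq B hp he, gm_self, rel4 B hp]
  linarith

end Pool.Agent.KS6_69.Ric.H662.RdE
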