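import Mathlib
import Pool.Agent.KS6_69.Ric.H662.RdD
import Pool.Agent.KS6_69.Ric.H662.Rz.Defs
import Pool.Agent.KS6_69.Ric.H662.Rz.P_w_fderiv
import Pool.Agent.KS6_69.Ric.H662.Rz.P_w_smooth
import Pool.Agent.KS6_69.Ric.H662.Rz.P_w_comm
import Pool.Agent.KS6_69.Ric.H662.Rz.P_w_conj
import Pool.Agent.KS6_69.Ric.H662.Rz.P_w_real
import Pool.Agent.KS6_69.Ric.H662.Rz.P_w_smR

set_option autoImplicit false
set_option linter.unusedSimpArgs false

namespace Pool.Agent.KS6_69.Ric.H662.RdF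

open Set Filter Topology ComplexConjugate
open Pool.Agent.KS6_69.Ric.H269.KdDefs Pool.Agent.KS6_69.Ric.H662.RdA Pool.Agent.KS6_69.Ric.H662.RdB
open Pool.Agent.KS6_69.Ric.H662.RdC Pool.Agent.KS6_69.Ric.H662.RdD
open Pool.Agent.KS6_69.Ric.H662.Rz (dz dzb cR Sm SmR th w_fderiv w_smooth w_comm w_conj w_real w_smR)

theorem w1_of {f : ℂ → ℂ} (h : Sm f) (z : ℂ) : W1 f z (dz f z) (dzb f z) := by
  have hd : DifferentiableAt ℝ f z := (ContDiff.differentiable h (by simp)) z
  unfold W1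
  refine hd.hasFDerivAt.congr_fderiv ?_
  refine ContinuousLinearMap.ext fun v => ?_
  rw [w_fderiv hd v, L2_apply]

theorem w1_real {φ : ℂ → ℝ} (h : SmR φ) (z : ℂ) :
    W1 (fun z => (φ z : ℂ)) z (dz (cR φ) z) (conj (dz (cR φ) z)) := by
  have := w1_of (w_smR h).1 z
  rw [w_conj h] at this
  exact this

theorem w1_lam {φ : ℂ → ℝ} (h : SmR φ) (z : ℂ) :
    W1 (dz (cR φ)) z (dz (dz (cR φ)) z) (th φ z) := by
  have := w1_of (w_smooth (w_smR h).1).1 z
  rw [w_real h] at this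
  exact this

theorem w1_mu {φ : ℂ → ℝ} (h : SmR φ) (z : ℂ) :
    W1 (dz (dz (cR φ))) z (dz (dz (dz (cR φ))) z) (dz (cR (th φ)) z) := by
  have h1 := (w_smooth (w_smR h).1).1
  have := w1_of (w_smooth h1).1 z
  rw [← w_comm h1] at this
  have e : dzb (dz (cR φ)) = cR (th φ) := by
    funext x
    exact w_real h x
  rw [e] at this
  exact this

/-- the data on the base, built from the exponent `φ` and the base metric. -/
noncomputable def mkB (φ g0 : ℂ → ℝ) (hφ : SmR φ) (hg : SmR g0) (hpos : ∀ z, 0 < g0 z)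
    (hth : ∀ z, 0 ≤ th φ z) : Base where
  k z := Real.exp (φ z)
  g0 := g0
  th := th φ
  kth := th (th φ)
  gzz := th g0
  lam := dz (cR φ)
  mu := dz (dz (cR φ))
  mup := dz (dz (dz (cR φ)))
  sig := dz (cR (th φ))
  sigp := dz (dz (cR (th φ)))
  gam := dz (cR g0)
  gamp := dz (dz (cR g0))
  dk z _ := by
    have h := w1_real hφ z
    unfold W1 at *
    have h2 := h.cexp
    have e : (fun z => ((Real.exp (φ z) : ℝ) : ℂ)) = fun z => Complex.exp (φ z : ℂ) := by
      funext x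
      rw [Complex.ofReal_exp]
    rw [e]
    refine h2.congr_fderiv ?_
    refine ContinuousLinearMap.ext fun v => ?_
    simp only [smul_apply, L2_apply, smul_eq_mul, Complex.ofReal_exp]
    ring
  dlam z _ := w1_lam hφ z
  dmu z _ := w1_mu hφ z
  dth z _ := w1_real (w_smR hφ).2 z
  dsig z _ := w1_lam (w_smR hφ).2 z
  dg0 z _ := w1_real hg z
  dgam z _ := w1_lam hg z
  kpos z _ := Real.exp_pos _
  g0pos z _ := hpos z
  thpos z _ := hth z
  sk := (Real.contDiff_exp.comp hφ).contDiffOn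
  sg0 := ContDiff.contDiffOn hg
  sth := ContDiff.contDiffOn (w_smR hφ).2
  slam := ContDiff.contDiffOn (w_smooth (w_smR hφ).1).1

end Pool.Agent.KS6_69.Ric.H662.RdF
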