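import Mathlib
import Pool.Agent.KS6_69.Ric.H662.RdE
import Pool.Agent.KS6_69.Ric.H662.RdF
import Pool.Agent.KS6_69.Ric.H269.KdP
import Pool.Agent.KS6_69.Ric.H269.KdJ
import Pool.Agent.KS6_69.Ric.H269.KdJ2
import Pool.Agent.KS6_69.Ric.H662.Rg.P_sublevel
import Pool.Agent.KS6_69.Ric.H662.Rg.P_simply
import Pool.Agent.KS6_69.Ric.H662.Rg.P_paths
import Pool.Agent.KS6_69.Ric.H662.Rg.P_constant

set_option autoImplicit false
set_option linter.unusedSimpArgs false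

namespace Pool.Agent.KS6_69.Ric.H662.RdM

open Set Filter Topology ComplexConjugate
open Pool.Agent.KS6_69.Ric.H269.KdDefs Pool.Agent.KS6_69.Ric.H662.RicDefs
open Pool.Agent.KS6_69.Ric.H662.RdA Pool.Agent.KS6_69.Ric.H662.RdB
open Pool.Agent.KS6_69.Ric.H662.RdC Pool.Agent.KS6_69.Ric.H662.RdD Pool.Agent.KS6_69.Ric.H662.RdE

theorem real_of_W2 {f : ℂ × ℂ → ℝ} {p : ℂ × ℂ} {a b c d : ℂ}
    (h : W2 (fun x => (f x : ℂ)) p a b c d) :
    HasFDerivAt f (Complex.reCLM.comp (L4 a b c d)) p := by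
  have := Complex.reCLM.hasFDerivAt.comp p h
  exact this

variable (B : Base)

/-- The exhaustion function. -/
noncomputable def Ex (ψ : ℂ → ℝ) (p : ℂ × ℂ) : ℝ := ψ p.1 + Real.log (rho B p)

noncomputable def dEx (ψ : ℂ → ℝ) (p : ℂ × ℂ) : ℂ × ℂ →L[ℝ] ℝ :=
  (fderiv ℝ ψ p.1).comp (ContinuousLinearMap.fst ℝ ℂ ℂ)
  + (rho B p)⁻¹ • Complex.reCLM.comp (L4 ((rho B p : ℂ) ^ 2 * (B.k p.1 * p.2 * conj p.2 * B.lam p.1))
      ((rho B p : ℂ) ^ 2 * (B.k p.1 * p.2 * conj p.2 * conj (B.lam p.1)))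
      ((rho B p : ℂ) ^ 2 * (B.k p.1 * conj p.2))
      ((rho B p : ℂ) ^ 2 * (B.k p.1 * p.2)))

theorem hasFDerivAt_Ex {ψ : ℂ → ℝ} (hψ : Differentiable ℝ ψ) {p : ℂ × ℂ} (hp : p ∈ dom B) :
    HasFDerivAt (Ex B ψ) (dEx B ψ p) p := by
  have h1 : HasFDerivAt (fun x : ℂ × ℂ => ψ x.1)
      ((fderiv ℝ ψ p.1).comp (ContinuousLinearMap.fst ℝ ℂ ℂ)) p :=
    (hψ p.1).hasFDerivAt.comp p hasFDerivAt_fst
  have h3 := (real_of_W2 (w2_rho B hp)).log (rho_pos B hp).ne'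
  exact h1.add h3

theorem log_part {p : ℂ × ℂ} (hp : p ∈ dom B) (v : ℂ × ℂ) :
    |(rho B p)⁻¹ * (L4 ((rho B p : ℂ) ^ 2 * (B.k p.1 * p.2 * conj p.2 * B.lam p.1))
      ((rho B p : ℂ) ^ 2 * (B.k p.1 * p.2 * conj p.2 * conj (B.lam p.1)))
      ((rho B p : ℂ) ^ 2 * (B.k p.1 * conj p.2))
      ((rho B p : ℂ) ^ 2 * (B.k p.1 * p.2)) v).re| ≤ 2 * Real.sqrt (gm B p v v) := by
  have hr := rho_pos B hp
  have hk := B.kpos p.1 hp.1
  have hq := qq_pos B hp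
  have e1 : L4 ((rho B p : ℂ) ^ 2 * (B.k p.1 * p.2 * conj p.2 * B.lam p.1))
      ((rho B p : ℂ) ^ 2 * (B.k p.1 * p.2 * conj p.2 * conj (B.lam p.1)))
      ((rho B p : ℂ) ^ 2 * (B.k p.1 * conj p.2))
      ((rho B p : ℂ) ^ 2 * (B.k p.1 * p.2)) v
      = ((rho B p ^ 2 * B.k p.1 : ℝ) : ℂ) * (conj p.2 * nu B p v + conj (conj p.2 * nu B p v)) := by
    rw [L4_apply]
    simp only [nu, map_add, map_mul, Complex.conj_conj]
    push_cast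
    ring
  have e2 : (rho B p)⁻¹ * (((rho B p ^ 2 * B.k p.1 : ℝ) : ℂ)
      * (conj p.2 * nu B p v + conj (conj p.2 * nu B p v))).re
      = 2 * (rho B p * B.k p.1 * (conj p.2 * nu B p v).re) := by
    rw [Complex.re_ofReal_mul, Complex.add_re, Complex.conj_re]
    field_simp
    ring
  rw [e1, e2, abs_mul, abs_two]
  apply mul_le_mul_of_nonneg_left _ (by norm_num)
  apply Real.abs_le_sqrt
  rw [gm_self]
  have h1 : (conj p.2 * nu B p v).re ^ 2 ≤ ‖p.2‖ ^ 2 * ‖nu B p v‖ ^ 2 := by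
    have h := Complex.abs_re_le_norm (conj p.2 * nu B p v)
    rw [norm_mul, RCLike.norm_conj] at h
    rw [← sq_abs, ← mul_pow]
    exact pow_le_pow_left₀ (abs_nonneg _) h 2
  have h2 : ‖p.2‖ ^ 2 * B.k p.1 ≤ 1 := hp.2.le
  have h3 : 0 ≤ rho B p ^ 2 * B.k p.1 ^ 2 := by positivity
  calc (rho B p * B.k p.1 * (conj p.2 * nu B p v).re) ^ 2
      = rho B p ^ 2 * B.k p.1 ^ 2 * (conj p.2 * nu B p v).re ^ 2 := by ring
    _ ≤ rho B p ^ 2 * B.k p.1 ^ 2 * (‖p.2‖ ^ 2 * ‖nu B p v‖ ^ 2) :=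
        mul_le_mul_of_nonneg_left h1 h3
    _ = (bb B p * ‖nu B p v‖ ^ 2) * (‖p.2‖ ^ 2 * B.k p.1) := by unfold bb; ring
    _ ≤ (bb B p * ‖nu B p v‖ ^ 2) * 1 := by
        apply mul_le_mul_of_nonneg_left h2
        have := bb_pos B hp
        positivity
    _ ≤ qq B p * ‖v.1‖ ^ 2 + bb B p * ‖nu B p v‖ ^ 2 := by
        have : 0 ≤ qq B p * ‖v.1‖ ^ 2 := by positivity
        linarith

theorem dEx_le {ψ : ℂ → ℝ} {C : ℝ} (hC : 1 ≤ C)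
    (hl : ∀ z v, |fderiv ℝ ψ z v| ≤ C * (Real.sqrt (B.g0 z) * ‖v‖)) {p : ℂ × ℂ}
    (hp : p ∈ dom B) (v : ℂ × ℂ) :
    |dEx B ψ p v| ≤ (C + 2) * Real.sqrt (gm B p v v) := by
  have h1 := log_part B hp v
  have h2 := hl p.1 v.1
  have hg0 := B.g0pos p.1 hp.1
  have hb := bb_pos B hp
  have h3 : B.g0 p.1 ≤ qq B p := by
    unfold qq
    have := mul_nonneg (sub_nonneg.mpr (one_le_rho B hp)) (B.thpos p.1 hp.1)
    linarith
  have h4 : Real.sqrt (B.g0 p.1) * ‖v.1‖ ≤ Real.sqrt (gm B p v v) := by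
    apply Real.le_sqrt_of_sq_le
    rw [mul_pow, Real.sq_sqrt hg0.le, gm_self]
    have h5 : 0 ≤ bb B p * ‖nu B p v‖ ^ 2 := by positivity
    have h6 : B.g0 p.1 * ‖v.1‖ ^ 2 ≤ qq B p * ‖v.1‖ ^ 2 :=
      mul_le_mul_of_nonneg_right h3 (by positivity)
    linarith
  have h7 : C * (Real.sqrt (B.g0 p.1) * ‖v.1‖) ≤ C * Real.sqrt (gm B p v v) :=
    mul_le_mul_of_nonneg_left h4 (by linarith)
  unfold dEx
  simp only [add_apply, smul_apply,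
    ContinuousLinearMap.comp_apply, Complex.reCLM_apply, smul_eq_mul,
    ContinuousLinearMap.coe_fst']
  refine (abs_add_le _ _).trans ?_
  linarith

theorem k_cont : Continuous B.k := by
  have h := B.sk.continuousOn
  rwa [continuousOn_univ] at h

/-- paths between any two points -/
theorem paths_nonempty : ∀ p ∈ dom B, ∀ q ∈ dom B, (pathsIn (dom B) p q).Nonempty := by
  intro p hp q hq
  obtain ⟨c, h1, h2, h3, h4⟩ := Pool.Agent.KS6_69.Ric.H662.Rg.paths (k_cont B)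
    (fun z => B.kpos z trivial) hp.2 hq.2
  exact ⟨c, h1, h2, h3, fun t ht => ⟨trivial, h4 t ht⟩⟩

theorem Ex_lip {ψ : ℂ → ℝ} {C : ℝ} (hψ : Differentiable ℝ ψ) (hC : 1 ≤ C)
    (hl : ∀ z v, |fderiv ℝ ψ z v| ≤ C * (Real.sqrt (B.g0 z) * ‖v‖)) :
    ∀ p ∈ dom B, ∀ q ∈ dom B, ∀ c ∈ pathsIn (dom B) p q, ∀ x ∈ Icc (0 : ℝ) 1,
      Ex B ψ (c x) ≤ Ex B ψ p + (C + 2) * pathLength (gm B) c := by
  intro p _ q _ c hc x hx
  obtain ⟨h1, h2, -, h4⟩ := hc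
  have hs := Pool.Agent.KS6_69.Ric.H269.KdJ2.S14273.continuousOn_speed (U := dom B) (g := gm B)
    (fun v w => (cd_gm B v w).continuousOn) h1 h4
  have h := Pool.Agent.KS6_69.Ric.H269.KdJ.S19373.lip_along (U := dom B) (Ψ := Ex B ψ)
    (Ψ' := dEx B ψ) (C := C + 2)
    (fun p hp => hasFDerivAt_Ex B hψ hp) h1 h4 hs (fun _ _ => Real.sqrt_nonneg _) (by linarith)
    (fun y hy => dEx_le B hC hl (h4 y hy) _) x hx
  rw [h2] at h
  have := (le_abs_self _).trans h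
  unfold pathLength
  linarith

theorem compact_sub {ψ : ℂ → ℝ} (hψ : Differentiable ℝ ψ) (hn : ∀ z, ‖z‖ ≤ ψ z) (a : ℝ) :
    IsCompact {p ∈ dom B | Ex B ψ p ≤ a} :=
  Pool.Agent.KS6_69.Ric.H662.Rg.sublevel (k_cont B) (fun z => B.kpos z trivial) hψ.continuous hn a

theorem isComplete {ψ : ℂ → ℝ} {C : ℝ} (hψ : Differentiable ℝ ψ) (hC : 1 ≤ C)
    (hl : ∀ z v, |fderiv ℝ ψ z v| ≤ C * (Real.sqrt (B.g0 z) * ‖v‖)) (hn : ∀ z, ‖z‖ ≤ ψ z) :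
    IsCompleteFor (dom B) (gm B) :=
  Pool.Agent.KS6_69.Ric.H269.KdP.complete_of_exhaustion (isOpen_dom B) (isKahler B).riemannian
    (paths_nonempty B) (by linarith : (0 : ℝ) ≤ C + 2) (Ex_lip B hψ hC hl) (compact_sub B hψ hn)

theorem simplyConnected : SimplyConnectedSpace (dom B) :=
  Pool.Agent.KS6_69.Ric.H662.Rg.simply (k_cont B) (fun z => B.kpos z trivial)

theorem zero_mem : ((0 : ℂ), (0 : ℂ)) ∈ dom B := ⟨trivial, by simp⟩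

theorem ricciDecay {T V : ℂ → ℝ} (hG : Good B T V) {ψ : ℂ → ℝ} {C : ℝ}
    (hψ : Differentiable ℝ ψ) (hC : 1 ≤ C)
    (hl : ∀ z v, |fderiv ℝ ψ z v| ≤ C * (Real.sqrt (B.g0 z) * ‖v‖)) (hn : ∀ z, ‖z‖ ≤ ψ z)
    (hbase : ∀ z, B.g0 z ^ 2 ≤ C * (kap B z + B.th z * B.g0 z) * (1 + ψ z ^ 2)) :
    HasRicciDecay (dom B) (gm B) (0, 0) := by
  have hp0 := zero_mem B
  set E0 : ℝ := Ex B ψ (0, 0) with hE0
  have hE0' : 0 ≤ E0 := by
    rw [hE0]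
    unfold Ex
    have h1 := Real.log_nonneg (one_le_rho B hp0)
    have h2 : 0 ≤ ψ 0 := (norm_nonneg _).trans (hn 0)
    exact add_nonneg h2 h1
  set D : ℝ := 1 + 2 * E0 ^ 2 + 2 * (C + 2) ^ 2 with hD
  have hD1 : 1 ≤ D := by rw [hD]; nlinarith [sq_nonneg E0, sq_nonneg (C + 2)]
  refine ⟨1 / (4 * C * D), by positivity, ?_⟩
  intro p hp
  set r := riemDist (dom B) (gm B) (0, 0) p with hr
  have h2 := Pool.Agent.KS6_69.Ric.H269.KdP.le_riemDist (paths_nonempty B)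
    (by linarith : (0 : ℝ) ≤ C + 2) (Ex_lip B hψ hC hl) hp0 hp
  rw [← hE0, ← hr] at h2
  have h3 : ψ p.1 ≤ E0 + (C + 2) * r := by
    have h4 := Real.log_nonneg (one_le_rho B hp)
    unfold Ex at h2
    linarith
  have h5 : 0 ≤ ψ p.1 := (norm_nonneg _).trans (hn _)
  have h6 : 1 + ψ p.1 ^ 2 ≤ D * (1 + r ^ 2) := by
    have h7 : ψ p.1 ^ 2 ≤ (E0 + (C + 2) * r) ^ 2 := pow_le_pow_left₀ h5 h3 2
    have h8 : (E0 + (C + 2) * r) ^ 2 ≤ 2 * E0 ^ 2 + 2 * (C + 2) ^ 2 * r ^ 2 := by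
      nlinarith [sq_nonneg (E0 - (C + 2) * r)]
    rw [hD]
    nlinarith [sq_nonneg r, sq_nonneg E0, mul_nonneg (sq_nonneg E0) (sq_nonneg r),
      sq_nonneg (C + 2)]
  have hpos : 0 < 1 + r ^ 2 := by positivity
  have hDpos : 0 < D := by linarith
  have hCpos : 0 < C := by linarith
  have hK0 : 0 ≤ 1 / (4 * C * D) / (1 + r ^ 2) := by positivity
  have hgoal : RicciLE (gm B) p (-(1 / (4 * C * D) / (1 + r ^ 2))) := by
    apply ricci_le B hG hp hK0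
    · rw [div_div, div_le_iff₀ (by positivity)]
      have h9 : 1 ≤ C * D := by nlinarith
      nlinarith [mul_nonneg (mul_nonneg hCpos.le hDpos.le) (sq_nonneg r)]
    · have h10 := hbase p.1
      have h11 := kap_nonneg B hG p.1
      have h12 : 0 ≤ B.th p.1 * B.g0 p.1 :=
        mul_nonneg (B.thpos p.1 trivial) (B.g0pos p.1 trivial).le
      have h13 : B.g0 p.1 ^ 2 ≤ C * (kap B p.1 + B.th p.1 * B.g0 p.1) * (D * (1 + r ^ 2)) :=
        h10.trans (mul_le_mul_of_nonneg_left h6 (by positivity))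
      have h14 : 2 * (1 / (4 * C * D) / (1 + r ^ 2)) * B.g0 p.1 ^ 2
          ≤ (kap B p.1 + B.th p.1 * B.g0 p.1) / 2 := by
        rw [div_div]
        have e : 2 * (1 / (4 * C * D * (1 + r ^ 2))) * B.g0 p.1 ^ 2
          = B.g0 p.1 ^ 2 / (2 * (C * D * (1 + r ^ 2))) := by
          field_simp
          ring
        rw [e, div_le_iff₀ (by positivity)]
        nlinarith
      linarith
  have e2 : -(1 / (4 * C * D)) / (1 + r ^ 2) = -(1 / (4 * C * D) / (1 + r ^ 2)) := by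
    rw [neg_div]
  rw [e2]
  exact hgoal

theorem constant (hkill : ∀ m : ℕ, 1 ≤ m → ∀ F : ℂ → ℂ, Differentiable ℂ F → ∀ C : ℝ,
      (∀ z, ‖F z‖ ^ 2 ≤ C * B.k z ^ m) → ∀ z, F z = 0) {f : ℂ × ℂ → ℂ}
    (hf : IsBddHol (dom B) f) : ∃ c : ℂ, ∀ p ∈ dom B, f p = c := by
  obtain ⟨hd, Bd, hBd⟩ := hf
  have hdom : dom B = {p : ℂ × ℂ | ‖p.2‖ ^ 2 * B.k p.1 < 1} := by
    ext p
    simp [dom]
  rw [hdom] at hd
  obtain ⟨c, hc⟩ := Pool.Agent.KS6_69.Ric.H662.Rg.constant (k_cont B) (fun z => B.kpos z trivial)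
    hkill hd (Bd := Bd) (fun p hp => hBd p ⟨trivial, hp⟩)
  exact ⟨c, fun p hp => hc p hp.2⟩

end Pool.Agent.KS6_69.Ric.H662.RdM
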