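import Mathlib
import Pool.Agent.KS6_69.Ric.H662.RdM
import Pool.Agent.KS6_69.Ric.H662.Rz.P_exists_QD
import Pool.Agent.KS6_69.Ric.H662.Rz.P_kill
import Pool.Agent.KS6_69.Ric.H662.Rz.P_base_good

set_option autoImplicit false

namespace Pool.Agent.KS6_69.Ric.H662.RdN

open Set Filter Topology ComplexConjugate
open Pool.Agent.KS6_69.Ric.H269.KdDefs Pool.Agent.KS6_69.Ric.H662.RicDefs
open Pool.Agent.KS6_69.Ric.H662.RdA Pool.Agent.KS6_69.Ric.H662.RdB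
open Pool.Agent.KS6_69.Ric.H662.RdC Pool.Agent.KS6_69.Ric.H662.RdD Pool.Agent.KS6_69.Ric.H662.RdE
open Pool.Agent.KS6_69.Ric.H662.RdF

theorem main : ∃ (U : Set (ℂ × ℂ)) (g : ℂ × ℂ → LinearMap.BilinForm ℝ (ℂ × ℂ)) (p₀ : ℂ × ℂ),
    IsOpen U ∧ SimplyConnectedSpace U ∧ IsKahlerMetricOn U g ∧ IsCompleteFor U g ∧
      HasNonposSecCurv U g ∧ p₀ ∈ U ∧ HasRicciDecay U g p₀ ∧
      ∀ f : ℂ × ℂ → ℂ, IsBddHol U f → ∃ c : ℂ, ∀ p ∈ U, f p = c := by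
  obtain ⟨Q⟩ := Pool.Agent.KS6_69.Ric.H662.Rz.exists_QD
  obtain ⟨K, hK, hkill⟩ := Pool.Agent.KS6_69.Ric.H662.Rz.kill Q
  obtain ⟨g0, ψ, T, V, C, hBG⟩ := Pool.Agent.KS6_69.Ric.H662.Rz.base_good Q
    (fun j => (by norm_num : 2 ≤ 4).trans (hK j))
  have hth : ∀ z, 0 ≤ Pool.Agent.KS6_69.Ric.H662.Rz.th (Pool.Agent.KS6_69.Ric.H662.Rz.phi Q K) z :=
    fun z => zero_le_one.trans (hBG.th1 z)
  obtain ⟨B, hB⟩ : ∃ B : Base, B = mkB (Pool.Agent.KS6_69.Ric.H662.Rz.phi Q K) g0 hBG.sφ hBG.sg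
      hBG.gpos hth := ⟨_, rfl⟩
  have hG : Good B T V := by
    rw [hB]
    exact ⟨hBG.th1, hBG.thT, hBG.sgT, hBG.ktT, hBG.V0, hBG.gV, hBG.gbig, hBG.gk⟩
  have hl : ∀ z v, |fderiv ℝ ψ z v| ≤ C * (Real.sqrt (B.g0 z) * ‖v‖) := by
    rw [hB]
    exact hBG.lψ
  have hbase : ∀ z, B.g0 z ^ 2 ≤ C * (kap B z + B.th z * B.g0 z) * (1 + ψ z ^ 2) := by
    rw [hB]
    exact hBG.base
  have hk : ∀ m : ℕ, 1 ≤ m → ∀ F : ℂ → ℂ, Differentiable ℂ F → ∀ C : ℝ,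
      (∀ z, ‖F z‖ ^ 2 ≤ C * B.k z ^ m) → ∀ z, F z = 0 := by
    rw [hB]
    exact hkill
  refine ⟨dom B, gm B, (0, 0), isOpen_dom B, RdM.simplyConnected B, isKahler B,
    RdM.isComplete B hBG.dψ hBG.C1 hl hBG.nψ, nonpos B hG, RdM.zero_mem B,
    RdM.ricciDecay B hG hBG.dψ hBG.C1 hl hBG.nψ hbase, ?_⟩
  intro f hf
  exact RdM.constant B hk hf

end Pool.Agent.KS6_69.Ric.H662.RdN
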